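import Pool.Agent.H948.HS.Stm

/-!
Project HS (problem MP_047546_pr), task HUP: upper bound for far walks.
-/

set_option autoImplicit false

namespace Pool.Agent.H356.HS

open MeasureTheory ProbabilityTheory Set Filter Metric
open Pool.Agent.H948.HS

theorem hup_Dn_le {m : ℕ} {ε : ℝ} (hε : 0 < ε) (hg : S_HG) (n : ℕ) : ∀ u : Om m, Dn ε u n ≤ n := by
  obtain ⟨_, _, _, _, h5, h6⟩ := hg m ε hε
  induction n with
  | zero => intro u; rw [(h6 u).1]; simp
  | succ n ih =>
    intro u
    have h := h5 u n 1
    have h1 := ih u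
    have h2 := (h6 (shift n u)).2
    push_cast
    linarith

theorem hup_Dn_sum {m : ℕ} {ε : ℝ} (hε : 0 < ε) (hg : S_HG) (l : ℕ) (u : Om m) (k : ℕ) :
    Dn ε u (k * l) ≤ ∑ i ∈ Finset.range k, Dn ε (shift (i * l) u) l := by
  obtain ⟨_, _, _, _, h5, h6⟩ := hg m ε hε
  induction k with
  | zero => rw [zero_mul, (h6 u).1]; simp
  | succ k ih =>
    rw [Finset.sum_range_succ, Nat.succ_mul]
    have h := h5 u (k * l) l
    linarith

theorem hup_saw {m : ℕ} {ε c : ℝ} {u : Om m} {n i k : ℕ} (h : u ∈ HSaw m ε c n) (hik : i + k ≤ n) :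
    shift i u ∈ HSaw m ε c k := by
  intro a b hab hb
  rw [shift_shift]
  have h1 := h (i + a) (i + b) (by omega) (by omega)
  rw [show i + b - (i + a) = b - a by omega] at h1
  exact h1

/-- **[HUP]** -/
theorem s_hup (hB : S_BLOCK) (hg : S_HG) (hm : S_HM) : S_HUP := by
  classical
  intro m ε c δ l k r j hε hc hδ hδ1 hl hr hk hj hjk
  -- the blocks
  let A : Finset ℕ → ℕ → Set (Om m) := fun s i =>
    if i ∈ s then HFar m ε c (δ / 2 * l) l else HSaw m ε c l
  let W : Finset ℕ → Set (Om m) := fun s => {u | ∀ i < k, shift (i * l) u ∈ A s i}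
  obtain ⟨_, _, _, ⟨hS1, hS2⟩, _, hF1, hF2⟩ := hm m ε c (δ / 2 * l) l
  have hW : ∀ s ∈ (Finset.range k).powersetCard j, (Pm m).real (W s) =
      (Pm m).real (HFar m ε c (δ / 2 * l) l) ^ j * (Pm m).real (HSaw m ε c l) ^ (k - j) := by
    intro s hs
    rw [Finset.mem_powersetCard] at hs
    have h := hB m k (fun i => i * l) (fun _ => l) (A s) (fun i _ => by
      by_cases hi : i ∈ s
      · simp only [A, if_pos hi]; exact ⟨hF1, hF2⟩
      · simp only [A, if_neg hi]; exact ⟨hS1, hS2⟩) (fun i _ => by
      show i * l + l ≤ (i + 1) * l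
      rw [Nat.succ_mul])
    have h' : (Pm m).real (W s) = ∏ i ∈ Finset.range k, (Pm m).real (A s i) := h
    rw [h']
    have e : ∀ i ∈ Finset.range k, (Pm m).real (A s i) =
        if i ∈ s then (Pm m).real (HFar m ε c (δ / 2 * l) l) else (Pm m).real (HSaw m ε c l) := by
      intro i _
      by_cases hi : i ∈ s
      · simp only [A, if_pos hi]
      · simp only [A, if_neg hi]
    rw [Finset.prod_congr rfl e, Finset.prod_ite, Finset.prod_const, Finset.prod_const]
    have e1 : (Finset.range k).filter (fun i => i ∈ s) = s := by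
      ext i
      rw [Finset.mem_filter]
      exact ⟨fun h => h.2, fun h => ⟨hs.1 h, h⟩⟩
    have e2 : ((Finset.range k).filter (fun i => ¬ i ∈ s)).card = k - j := by
      have h1 := Finset.card_filter_add_card_filter_not (s := Finset.range k) (fun i => i ∈ s)
      rw [e1, Finset.card_range, hs.2] at h1
      omega
    rw [e1, e2, hs.2]
  have hsub : HFar m ε c (δ * ((k * l + r : ℕ) : ℝ)) (k * l + r) ⊆
      ⋃ s ∈ (Finset.range k).powersetCard j, W s := by
    intro u hu
    obtain ⟨hu1, hu2⟩ := hu
    obtain ⟨_, _, _, _, h5, h6⟩ := hg m ε hε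
    have hsaw : ∀ i < k, shift (i * l) u ∈ HSaw m ε c l := fun i hi =>
      hup_saw hu1 (by
        have : (i + 1) * l ≤ k * l := Nat.mul_le_mul_right l hi
        rw [Nat.succ_mul] at this
        omega)
    set T := (Finset.range k).filter (fun i => δ / 2 * l ≤ Dn ε (shift (i * l) u) l) with hT
    have hlR : (1 : ℝ) ≤ l := by exact_mod_cast hl
    have hrR : (r : ℝ) + 1 ≤ l := by exact_mod_cast hr
    have hcard : j ≤ T.card := by
      by_contra hcon
      push Not at hcon
      have h1 := h5 u (k * l) r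
      have h2 := hup_Dn_le hε hg r (shift (k * l) u)
      have h3 := hup_Dn_sum hε hg l u k
      have h4 : ∑ i ∈ Finset.range k, Dn ε (shift (i * l) u) l ≤
          ∑ i ∈ Finset.range k, (δ / 2 * l + if i ∈ T then (l : ℝ) else 0) := by
        refine Finset.sum_le_sum fun i hi => ?_
        by_cases hi' : i ∈ T
        · rw [if_pos hi']
          have := hup_Dn_le hε hg l (shift (i * l) u)
          have h0 : 0 ≤ δ / 2 * l := by positivity
          linarith
        · rw [if_neg hi']
          have : ¬ (δ / 2 * l ≤ Dn ε (shift (i * l) u) l) := fun h' =>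
            hi' (by rw [hT, Finset.mem_filter]; exact ⟨hi, h'⟩)
          push Not at this
          linarith
      have h7 : ∑ i ∈ Finset.range k, (δ / 2 * l + if i ∈ T then (l : ℝ) else 0) =
          k * (δ / 2 * l) + T.card * l := by
        rw [Finset.sum_add_distrib, Finset.sum_const, Finset.card_range, nsmul_eq_mul,
          ← Finset.sum_filter, Finset.sum_const, nsmul_eq_mul]
        have e1 : (Finset.range k).filter (fun i => i ∈ T) = T := by
          ext i
          rw [Finset.mem_filter]
          exact ⟨fun h => h.2, fun h => ⟨(Finset.mem_filter.mp h).1, h⟩⟩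
        rw [e1]
      have h8 : (T.card : ℝ) + 1 ≤ j := by exact_mod_cast hcon
      have h9 : (T.card : ℝ) * l + l ≤ j * l := by nlinarith
      have h10 : (j : ℝ) * l + l ≤ δ / 2 * k * l := by nlinarith
      have h11 : δ * ((k * l + r : ℕ) : ℝ) ≤ Dn ε u (k * l + r) := hu2
      push_cast at h11
      have h12 : 0 ≤ δ * (r : ℝ) := by positivity
      nlinarith
    obtain ⟨s, hsT, hs⟩ := Finset.exists_subset_card_eq hcard
    rw [mem_iUnion₂]
    refine ⟨s, ?_, ?_⟩
    · rw [Finset.mem_powersetCard]
      exact ⟨hsT.trans (Finset.filter_subset _ _), hs⟩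
    · intro i hi
      by_cases his : i ∈ s
      · have h1 := (Finset.mem_filter.mp (hsT his)).2
        show shift (i * l) u ∈ A s i
        simp only [A, if_pos his]
        exact ⟨hsaw i hi, h1⟩
      · show shift (i * l) u ∈ A s i
        simp only [A, if_neg his]
        exact hsaw i hi
  have hP0 : 0 ≤ (Pm m).real (HFar m ε c (δ / 2 * l) l) ^ j *
      (Pm m).real (HSaw m ε c l) ^ (k - j) := by positivity
  calc (Pm m).real (HFar m ε c (δ * ((k * l + r : ℕ) : ℝ)) (k * l + r))
      ≤ (Pm m).real (⋃ s ∈ (Finset.range k).powersetCard j, W s) :=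
        measureReal_mono hsub (measure_ne_top _ _)
    _ ≤ ∑ s ∈ (Finset.range k).powersetCard j, (Pm m).real (W s) :=
        measureReal_biUnion_finset_le _ _
    _ = (k.choose j : ℝ) * ((Pm m).real (HFar m ε c (δ / 2 * l) l) ^ j *
          (Pm m).real (HSaw m ε c l) ^ (k - j)) := by
        rw [Finset.sum_congr rfl hW, Finset.sum_const, Finset.card_powersetCard,
          Finset.card_range, nsmul_eq_mul]
    _ ≤ 2 ^ k * ((Pm m).real (HFar m ε c (δ / 2 * l) l) ^ j *
          (Pm m).real (HSaw m ε c l) ^ (k - j)) := by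
        refine mul_le_mul_of_nonneg_right ?_ hP0
        have : k.choose j ≤ 2 ^ k := Nat.choose_le_two_pow k j
        exact_mod_cast this
    _ = 2 ^ k * (Pm m).real (HFar m ε c (δ / 2 * l) l) ^ j *
          (Pm m).real (HSaw m ε c l) ^ (k - j) := by ring

end Pool.Agent.H356.HS
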